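import Pool.Agent.R554.BoggleHard

/-!
# Solving Boggle logic puzzles is NP-complete

The decision problem BOGGLE-SOLVE (`Pool.Agent.R554.Boggle.BoggleSolve`): given `n ≥ 1` in unary (as
the length of a list) and a finite list `P` of words over the letters `1, ..., n ^ 2`, is there a
board (a bijection of the cells of the `n × n` board with the letters) in which all the words of `P`
occur?

The proof reduces bin packing with numbers in unary to the problem.  The board consists of a frame
(rows and columns of width three) and long slots of height one.  The words force every copy of the
frame to be the image of the frame under an isometry of the board (windows of size `3 × 3` are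
rigid), and the remaining words are paths, which must be packed into the slots.
-/

set_option autoImplicit false

namespace Pool.Agent.Results.MP_406c0a_lc.BoggleNPComplete

open Pool.Agent.NPC Pool.Agent.R554.Boggle

/-- BOGGLE-SOLVE is in `NP`, it is `NP`-hard, and it is in `P` iff all of `NP` is in `P`. -/
theorem result :
    InNPP BoggleSolve ∧ NPHardP BoggleSolve ∧
      (InPP BoggleSolve ↔ ∀ L : Set (List Bool), InNP L → InP L) :=
  ⟨R554Boggle.inNP_boggle, R554Boggle.npHard_boggle,
    fun h => NPHard.collapse R554Boggle.npHard_boggle h,
    fun h => h _ R554Boggle.inNP_boggle⟩

end Pool.Agent.Results.MP_406c0a_lc.BoggleNPComplete
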